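import Mathlib
import Pool.Agent.Lib.PosetAlg.Own

set_option autoImplicit false

universe u

namespace Pool.Agent.Results.MP_fbb83b_lc.SuperatomicEmbedding

open Pool.Agent.Lib.PosetAlg

/-- Every partial order `P` has a poset algebra `F(P)`; and `F(P)` is superatomic if and only if
`P` is scattered with the finite antichain condition, if and only if `F(P)` embeds in `F(W)` for
some well-quasi-ordering `W`. -/
theorem result (P : Type u) [PartialOrder P] :
    (∃ (A : Type u) (_ : BooleanAlgebra A) (x : P → A), IsPosetAlgebra x) ∧
    ∀ (A : Type u) [BooleanAlgebra A] (x : P → A), IsPosetAlgebra x →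
      List.TFAE [
        Superatomic A,
        Scattered P ∧ FiniteAntichains P,
        ∃ (W : Type u) (_ : PartialOrder W), IsWellQuasiOrdering W ∧
          ∃ (B : Type u) (_ : BooleanAlgebra B) (y : W → B), IsPosetAlgebra y ∧
            ∃ f : BoundedLatticeHom A B, Function.Injective f] :=
  ⟨⟨Cl P, inferInstance, gen P, isPosetAlgebra_gen P⟩, fun _ _ x hx => tfae x hx⟩

end Pool.Agent.Results.MP_fbb83b_lc.SuperatomicEmbedding
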